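import Mathlib

set_option autoImplicit false
open Set Topology

namespace Pool.Agent.Lib.MP_74305c_gt

/-- `X` is totally paracompact: every base has a locally finite subfamily that covers `X`. -/
def TotallyParacompact (X : Type*) [TopologicalSpace X] : Prop :=
  ∀ B : Set (Set X), TopologicalSpace.IsTopologicalBasis B →
    ∃ C : Set (Set X), C ⊆ B ∧ ⋃₀ C = univ ∧ LocallyFinite (fun c : C => (c : Set X))

/-- A partial open neighbourhood assignment `{V_x : x ∈ Y}` in `X`: a set `Y` of points (`dom`) and,
for every `x ∈ Y`, an open set `nbhd x` that contains `x`. -/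
structure PONA (X : Type*) [TopologicalSpace X] where
  /-- the set `Y` of points to which a neighbourhood is assigned -/
  dom : Set X
  /-- the neighbourhood `V_x` of the point `x ∈ Y` -/
  nbhd : dom → Set X
  isOpen_nbhd : ∀ x : dom, IsOpen (nbhd x)
  mem_nbhd : ∀ x : dom, (x : X) ∈ nbhd x

variable {X : Type*} [TopologicalSpace X]

/-- `V_D`, the union of the sets `V_x` over the `x ∈ Y` that lie in `D`. -/
def PONA.union (V : PONA X) (D : Set X) : Set X := {z | ∃ x : V.dom, (x : X) ∈ D ∧ z ∈ V.nbhd x}

/-- `W_n`: the points not covered by Bob's choices in the rounds before round `n`, in the play in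
which Alice plays `A 0, A 1, ...` and Bob answers `D 0, D 1, ...`. -/
def uncovered (A : ℕ → PONA X) (D : ℕ → Set X) (n : ℕ) : Set X :=
  {z | ∀ k < n, z ∉ (A k).union (D k)}

/-- Alice's move in round `n` obeys the rules: `Y_n ⊆ W_n` and the sets `V_x`, `x ∈ Y_n`, cover
`W_n`. (`W_0` is the whole space, so in round `0` this says that the union of the family is `X`.) -/
def AliceLegal (A : ℕ → PONA X) (D : ℕ → Set X) (n : ℕ) : Prop :=
  (A n).dom ⊆ uncovered A D n ∧ uncovered A D n ⊆ (A n).union (A n).dom

/-- Bob's move in round `n` obeys the rules: `D_n ⊆ Y_n` is closed and discrete in `X`. -/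
def BobLegal (A : ℕ → PONA X) (D : ℕ → Set X) (n : ℕ) : Prop :=
  D n ⊆ (A n).dom ∧ IsClosed (D n) ∧ IsDiscrete (D n)

/-- A strategy for Bob in the game PONAG: his answer in round `n` is a function of all the moves
made before round `n` (by both players) and of Alice's move in round `n`. -/
def BobStrategy (X : Type*) [TopologicalSpace X] :=
  (n : ℕ) → (Fin n → PONA X × Set X) → PONA X → Set X

/-- Bob plays according to the strategy `σ` in every round. -/
def BobStrategy.Follows (σ : BobStrategy X) (A : ℕ → PONA X) (D : ℕ → Set X) : Prop :=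
  ∀ n, D n = σ n (fun k => (A k, D k)) (A n)

/-- `σ` is a winning strategy for Bob: whenever Bob follows it, his moves obey the rules as long as
Alice's do, and if all of Alice's moves obey the rules then the sets `V_x`, `x ∈ D_n`, `n ∈ ω`,
cover `X`. -/
def BobStrategy.IsWinning (σ : BobStrategy X) : Prop :=
  ∀ (A : ℕ → PONA X) (D : ℕ → Set X), σ.Follows A D →
    (∀ n, (∀ k ≤ n, AliceLegal A D k) → BobLegal A D n) ∧
    ((∀ n, AliceLegal A D n) → ⋃ n, (A n).union (D n) = univ)

/-- Bob has a winning strategy in `PONAG(X)`. -/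
def BobWins (X : Type*) [TopologicalSpace X] : Prop := ∃ σ : BobStrategy X, σ.IsWinning

end Pool.Agent.Lib.MP_74305c_gt
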