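import Mathlib
import Pool.Agent.Lib.MP_74305c_gt.Defs

set_option autoImplicit false
open Set Topology Cardinal

namespace Pool.Agent.Lib.MP_74305c_gt

/-- Functions `I → ℕ` with countable support. -/
def Fn (I : Type) : Type := {f : I → ℕ // (Function.support f).Countable}

section
variable {I : Type} [LinearOrder I]

/-- The functions that agree with `f` below `a`. -/
def cone (f : Fn I) (a : I) : Set (Fn I) := {g | ∀ b < a, g.1 b = f.1 b}

lemma mem_cone_self (f : Fn I) (a : I) : f ∈ cone f a := fun _ _ => rfl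

lemma cone_subset {f g : Fn I} {a c : I} (h : g ∈ cone f a) (hac : a ≤ c) :
    cone g c ⊆ cone f a := fun k hk b hb => (hk b (hb.trans_le hac)).trans (h b hb)

instance [Nonempty I] : TopologicalSpace (Fn I) where
  IsOpen U := ∀ f ∈ U, ∃ a, cone f a ⊆ U
  isOpen_univ := fun f _ => ⟨Classical.arbitrary I, fun _ _ => trivial⟩
  isOpen_inter := by
    intro U V hU hV f hf
    obtain ⟨a, ha⟩ := hU f hf.1
    obtain ⟨b, hb⟩ := hV f hf.2
    refine ⟨max a b, fun g hg => ⟨ha ?_, hb ?_⟩⟩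
    · exact fun c hc => hg c (hc.trans_le (le_max_left _ _))
    · exact fun c hc => hg c (hc.trans_le (le_max_right _ _))
  isOpen_sUnion := by
    intro S hS f ⟨U, hU, hf⟩
    obtain ⟨a, ha⟩ := hS U hU f hf
    exact ⟨a, fun g hg => ⟨U, hU, ha hg⟩⟩

variable [Nonempty I]

lemma isOpen_iff (U : Set (Fn I)) : IsOpen U ↔ ∀ f ∈ U, ∃ a, cone f a ⊆ U := Iff.rfl

lemma isOpen_cone (f : Fn I) (a : I) : IsOpen (cone f a) := by
  rw [isOpen_iff]
  exact fun g hg => ⟨a, cone_subset hg le_rfl⟩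

lemma isClosed_cone (f : Fn I) (a : I) : IsClosed (cone f a) := by
  rw [← isOpen_compl_iff, isOpen_iff]
  intro g hg
  refine ⟨a, fun k hk hk' => hg fun b hb => ?_⟩
  rw [← hk b hb, hk' b hb]

lemma cone_mem_nhds (f : Fn I) (a : I) : cone f a ∈ 𝓝 f :=
  (isOpen_cone f a).mem_nhds (mem_cone_self f a)

lemma mem_nhds_iff' (f : Fn I) (U : Set (Fn I)) : U ∈ 𝓝 f ↔ ∃ a, cone f a ⊆ U := by
  constructor
  · intro h
    obtain ⟨V, hVU, hV, hf⟩ := mem_nhds_iff.mp h
    obtain ⟨a, ha⟩ := hV f hf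
    exact ⟨a, ha.trans hVU⟩
  · rintro ⟨a, ha⟩
    exact Filter.mem_of_superset (cone_mem_nhds f a) ha

instance : RegularSpace (Fn I) := by
  refine RegularSpace.of_exists_mem_nhds_isClosed_subset fun f s hs => ?_
  obtain ⟨a, ha⟩ := (mem_nhds_iff' f s).mp hs
  exact ⟨cone f a, cone_mem_nhds f a, isClosed_cone f a, ha⟩

lemma exists_lt_of_bdd (H1 : ∀ S : Set I, #S ≤ 𝔠 → ∃ b, ∀ s ∈ S, s < b) (a : I) :
    ∃ b, a < b := by
  obtain ⟨b, hb⟩ := H1 {a} (by
    rw [Cardinal.mk_singleton]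
    exact Cardinal.one_le_aleph0.trans Cardinal.aleph0_le_continuum)
  exact ⟨b, hb a rfl⟩

lemma t0Space (H1 : ∀ S : Set I, #S ≤ 𝔠 → ∃ b, ∀ s ∈ S, s < b) : T0Space (Fn I) := by
  refine ⟨fun f g hfg => ?_⟩
  by_contra hne
  have : ∃ b, f.1 b ≠ g.1 b := by
    by_contra hcon
    push Not at hcon
    exact hne (Subtype.ext (funext hcon))
  obtain ⟨b, hb⟩ := this
  obtain ⟨a, ha⟩ := exists_lt_of_bdd H1 b
  have h1 : g ∈ cone f a := (inseparable_iff_forall_isOpen.mp hfg _ (isOpen_cone f a)).mp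
    (mem_cone_self f a)
  exact hb (h1 b ha).symm

/-- Small sets are closed and discrete. -/
lemma small_closed_discrete (H1 : ∀ S : Set I, #S ≤ 𝔠 → ∃ b, ∀ s ∈ S, s < b)
    (S : Set (Fn I)) (hS : #S ≤ 𝔠) : IsClosed S ∧ IsDiscrete S := by
  classical
  rw [isClosed_and_discrete_iff]
  intro f
  have hsep : ∀ s : S, ∃ b, s.1 ≠ f → s.1.1 b ≠ f.1 b := by
    intro s
    by_cases h : s.1 = f
    · exact ⟨Classical.arbitrary I, fun h' => absurd h h'⟩
    · by_contra hcon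
      push Not at hcon
      exact h (Subtype.ext (funext fun b => (hcon b).2))
  choose t ht using hsep
  obtain ⟨a, ha⟩ := H1 (range t) (mk_range_le.trans hS)
  rw [disjoint_iff, Filter.inf_principal_eq_bot, mem_nhdsWithin_iff_exists_mem_nhds_inter]
  refine ⟨cone f a, cone_mem_nhds f a, ?_⟩
  rintro g ⟨hg1, hg2⟩ hgS
  exact ht ⟨g, hgS⟩ hg2 (hg1 _ (ha _ ⟨_, rfl⟩))

end

end Pool.Agent.Lib.MP_74305c_gt
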