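import Mathlib
import Pool.Agent.Lib.MP_74305c_gt.Space

set_option autoImplicit false
open Set Topology Cardinal

namespace Pool.Agent.Lib.MP_74305c_gt

variable {I : Type} [LinearOrder I]

/-- Functions supported below `a`. -/
def T (a : I) : Set (Fn I) := {f | ∀ b, a ≤ b → f.1 b = 0}

/-- The graph of the nonzero part of `f`. -/
def gr (f : Fn I) : Set (I × ℕ) := {p | f.1 p.1 = p.2 ∧ p.2 ≠ 0}

omit [LinearOrder I] in
lemma gr_injective : Function.Injective (gr (I := I)) := by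
  intro f g h
  apply Subtype.ext
  funext b
  by_cases hf : f.1 b = 0
  · by_cases hg : g.1 b = 0
    · rw [hf, hg]
    · have h1 : ((b, g.1 b) : I × ℕ) ∈ gr g := ⟨rfl, hg⟩
      rw [← h] at h1
      exact h1.1
  · have h1 : ((b, f.1 b) : I × ℕ) ∈ gr f := ⟨rfl, hf⟩
    rw [h] at h1
    exact h1.1.symm

omit [LinearOrder I] in
lemma gr_countable (f : Fn I) : (gr f).Countable := by
  refine (f.2.image (fun b => (b, f.1 b))).mono ?_
  rintro ⟨b, n⟩ ⟨h1, h2⟩
  simp only at h1 h2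
  refine ⟨b, ?_, ?_⟩
  · rw [Function.mem_support, h1]
    exact h2
  · change (b, f.1 b) = (b, n)
    rw [h1]

lemma mk_T_le (H2 : ∀ a : I, #(Iio a) ≤ 𝔠) (a : I) : #(T a) ≤ 𝔠 := by
  have h1 : #(T a) ≤ #{t : Set (I × ℕ) // t ⊆ (Iio a) ×ˢ (Set.univ : Set ℕ) ∧ #t ≤ ℵ₀} := by
    refine Cardinal.mk_le_of_injective (f := fun f => ⟨gr f.1, ?_, ?_⟩) ?_
    · rintro ⟨b, n⟩ ⟨hb1, hb2⟩
      simp only at hb1 hb2
      refine ⟨?_, trivial⟩
      by_contra hcon
      rw [mem_Iio, not_lt] at hcon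
      exact hb2 (hb1.symm.trans (f.2 b hcon))
    · exact (gr_countable f.1).le_aleph0
    · intro f g h
      exact Subtype.ext (gr_injective (congrArg Subtype.val h))
  refine h1.trans ((Cardinal.mk_bounded_subset_le _ _).trans ?_)
  rw [← Cardinal.continuum_power_aleph0]
  refine Cardinal.power_le_power_right (max_le ?_ Cardinal.aleph0_le_continuum)
  rw [Cardinal.mk_setProd]
  simp only [Cardinal.mk_univ, Cardinal.mk_denumerable]
  calc #(Iio a) * ℵ₀ ≤ 𝔠 * 𝔠 := mul_le_mul' (H2 a) Cardinal.aleph0_le_continuum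
    _ = 𝔠 := Cardinal.continuum_mul_self

/-- The index set of the transfinite construction. -/
abbrev Om : Type := (Ordinal.omega 1).ToType

lemma mk_Om : #Om = ℵ₁ := by
  simp [Om]

lemma Om_bdd (S : Set Om) (hS : S.Countable) : ∃ b, ∀ s ∈ S, s < b := by
  by_contra hcon
  push Not at hcon
  have h1 : IsCofinal S := hcon
  have h2 := Order.cof_le h1
  rw [Ordinal.cof_toType, Cardinal.cof_omega_one] at h2
  exact absurd (h2.trans hS.le_aleph0) (not_le.mpr Cardinal.aleph0_lt_aleph_one)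

lemma exists_chain (H1 : ∀ S : Set I, #S ≤ 𝔠 → ∃ b, ∀ s ∈ S, s < b) (nx : I → I) :
    ∃ F : Om → I, ∀ ξ η, η < ξ → nx (F η) < F ξ := by
  classical
  have H1' : ∀ S : Set I, ∃ b, #S ≤ 𝔠 → ∀ s ∈ S, s < b := by
    intro S
    by_cases h : #S ≤ 𝔠
    · obtain ⟨b, hb⟩ := H1 S h
      exact ⟨b, fun _ => hb⟩
    · obtain ⟨b, -⟩ := H1 ∅ (by simp)
      exact ⟨b, fun h' => absurd h' h⟩
  choose g hg using H1'
  let F : Om → I := (wellFounded_lt (α := Om)).fix
    (fun ξ rec => g {i | ∃ η, ∃ h : η < ξ, i = nx (rec η h)})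
  have hF : ∀ ξ, F ξ = g {i | ∃ η, ∃ _ : η < ξ, i = nx (F η)} := by
    intro ξ
    exact (wellFounded_lt (α := Om)).fix_eq _ ξ
  refine ⟨F, fun ξ η h => ?_⟩
  rw [hF ξ]
  refine hg _ ?_ _ ⟨η, h, rfl⟩
  have : {i | ∃ η, ∃ _ : η < ξ, i = nx (F η)} ⊆ Set.range (fun η : Om => nx (F η)) := by
    rintro _ ⟨η, -, rfl⟩
    exact ⟨η, rfl⟩
  refine (Cardinal.mk_le_mk_of_subset this).trans (Cardinal.mk_range_le.trans ?_)
  rw [mk_Om]
  exact Cardinal.aleph_one_le_continuum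

theorem exists_small_subcover [Nonempty I]
    (H1 : ∀ S : Set I, #S ≤ 𝔠 → ∃ b, ∀ s ∈ S, s < b) (H2 : ∀ a : I, #(Iio a) ≤ 𝔠)
    (V : PONA (Fn I)) (hV : Set.univ ⊆ V.union V.dom) :
    ∃ D ⊆ V.dom, #D ≤ 𝔠 ∧ V.union D = Set.univ := by
  classical
  have h1 : ∀ f : Fn I, ∃ (y : V.dom) (a : I), cone f a ⊆ V.nbhd y := by
    intro f
    obtain ⟨y, -, hy⟩ := hV (mem_univ f)
    obtain ⟨a, ha⟩ := V.isOpen_nbhd y f hy
    exact ⟨y, a, ha⟩
  choose y al hal using h1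
  have h2 : ∀ a : I, ∃ n, (∀ f ∈ T a, al f < n) ∧ a < n := by
    intro a
    obtain ⟨n, hn⟩ := H1 (al '' T a ∪ {a}) (by
      refine (Cardinal.mk_union_le _ _).trans ?_
      rw [Cardinal.mk_singleton]
      calc #(al '' T a) + 1 ≤ 𝔠 + 𝔠 :=
            add_le_add (Cardinal.mk_image_le.trans (mk_T_le H2 a))
              (Cardinal.one_le_aleph0.trans Cardinal.aleph0_le_continuum)
        _ = 𝔠 := Cardinal.continuum_add_self)
    exact ⟨n, fun f hf => hn _ (Or.inl ⟨f, hf, rfl⟩), hn _ (Or.inr rfl)⟩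
  choose nx hnx1 hnx2 using h2
  obtain ⟨F, hF⟩ := exists_chain H1 nx
  have hFmono : ∀ ξ η, η < ξ → F η < F ξ := fun ξ η h => (hnx2 _).trans (hF ξ η h)
  refine ⟨⋃ ξ : Om, (fun f => (y f : Fn I)) '' T (F ξ), ?_, ?_, ?_⟩
  · intro z hz
    obtain ⟨ξ, f, -, rfl⟩ := mem_iUnion.mp hz
    exact (y f).2
  · refine (Cardinal.mk_iUnion_le _).trans ?_
    have hsup : (⨆ ξ : Om, #((fun f => (y f : Fn I)) '' T (F ξ) : Set (Fn I))) ≤ 𝔠 :=
      ciSup_le' fun ξ => Cardinal.mk_image_le.trans (mk_T_le H2 _)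
    calc #Om * _ ≤ 𝔠 * 𝔠 := mul_le_mul' (mk_Om ▸ Cardinal.aleph_one_le_continuum) hsup
      _ = 𝔠 := Cardinal.continuum_mul_self
  · rw [Set.eq_univ_iff_forall]
    intro g
    -- choose, for each support point below some `F ξ`, such a `ξ`
    have h3 : ∀ b : I, ∃ ξ : Om, (∃ η, b < F η) → b < F ξ := by
      intro b
      by_cases h : ∃ η, b < F η
      · obtain ⟨η, hη⟩ := h
        exact ⟨η, fun _ => hη⟩
      · obtain ⟨o, -⟩ := Om_bdd ∅ countable_empty
        exact ⟨o, fun h' => absurd h' h⟩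
    choose k hk using h3
    obtain ⟨ξ, hξ⟩ := Om_bdd (k '' Function.support g.1) (g.2.image k)
    obtain ⟨ζ, hζ⟩ := Om_bdd {ξ} (countable_singleton ξ)
    have hξζ : ξ < ζ := hζ ξ rfl
    have hzero : ∀ b, F ξ ≤ b → (∃ η, b < F η) → g.1 b = 0 := by
      intro b hb hη
      by_contra hne
      have h4 := hk b hη
      have h5 := hξ (k b) ⟨b, hne, rfl⟩
      exact absurd (h4.trans (hFmono _ _ h5)) (not_lt.mpr hb)
    let f : Fn I := ⟨fun b => if b < F ξ then g.1 b else 0, by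
      refine g.2.mono ?_
      intro b hb
      rw [Function.mem_support] at hb ⊢
      intro h
      apply hb
      simp [h]⟩
    have hfT : f ∈ T (F ξ) := by
      intro b hb
      simp only [f, if_neg (not_lt.mpr hb)]
    refine ⟨y f, mem_iUnion.mpr ⟨ξ, f, hfT, rfl⟩, hal f ?_⟩
    intro b hb
    by_cases hbξ : b < F ξ
    · simp only [f, if_pos hbξ]
    · simp only [f, if_neg hbξ]
      exact hzero b (not_lt.mp hbξ) ⟨ζ, hb.trans ((hnx1 _ f hfT).trans (hF ζ ξ hξζ))⟩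

theorem bobWins [Nonempty I]
    (H1 : ∀ S : Set I, #S ≤ 𝔠 → ∃ b, ∀ s ∈ S, s < b) (H2 : ∀ a : I, #(Iio a) ≤ 𝔠) :
    BobWins (Fn I) := by
  classical
  have key : ∀ V : PONA (Fn I), ∃ D : Set (Fn I), D ⊆ V.dom ∧ #D ≤ 𝔠 ∧
      (Set.univ ⊆ V.union V.dom → V.union D = Set.univ) := by
    intro V
    by_cases h : Set.univ ⊆ V.union V.dom
    · obtain ⟨D, hD1, hD2, hD3⟩ := exists_small_subcover H1 H2 V h
      exact ⟨D, hD1, hD2, fun _ => hD3⟩
    · exact ⟨∅, empty_subset _, by simp, fun h' => absurd h' h⟩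
  choose S hS1 hS2 hS3 using key
  refine ⟨fun _ _ V => S V, fun A D hfol => ⟨fun n _ => ?_, fun hleg => ?_⟩⟩
  · have hn : D n = S (A n) := hfol n
    refine ⟨?_, ?_⟩
    · rw [hn]
      exact hS1 _
    · rw [hn]
      exact small_closed_discrete H1 _ (hS2 _)
  · have h0 : D 0 = S (A 0) := hfol 0
    have h1 := (hleg 0).2
    have h2 : uncovered A D 0 = Set.univ := by
      rw [Set.eq_univ_iff_forall]
      intro z k hk
      exact absurd hk (Nat.not_lt_zero k)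
    rw [h2] at h1
    rw [Set.eq_univ_iff_forall]
    intro z
    refine mem_iUnion.mpr ⟨0, ?_⟩
    rw [h0, hS3 _ h1]
    trivial

/-- The index set of the example: the initial ordinal of the successor of the continuum. -/
abbrev Kap : Type := (Order.succ (Cardinal.continuum.{0})).ord.ToType

lemma Kap_H1 (S : Set Kap) (hS : #S ≤ 𝔠) : ∃ b, ∀ s ∈ S, s < b := by
  by_contra hcon
  push Not at hcon
  have h1 : IsCofinal S := hcon
  have h2 := Order.cof_le h1
  rw [Ordinal.cof_toType,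
    (Cardinal.isRegular_succ Cardinal.aleph0_le_continuum).cof_ord] at h2
  exact absurd (h2.trans hS) (not_le.mpr (Order.lt_succ _))

lemma Kap_H2 (a : Kap) : #(Iio a) ≤ 𝔠 := by
  have h : #(Iio a) < #Kap := Cardinal.mk_Iio_lt a (by simp)
  have hk : #Kap = Order.succ 𝔠 := by simp [Kap]
  rw [hk] at h
  exact Order.lt_succ_iff.mp h

end Pool.Agent.Lib.MP_74305c_gt
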