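import Mathlib
import Pool.Agent.Lib.MP_74305c_gt.Space

set_option autoImplicit false
open Set Topology

namespace Pool.Agent.Lib.MP_74305c_gt

variable {I : Type} [LinearOrder I]

/-- The members of the special base. -/
def bset (x : Fn I) (a : I) : Set (Fn I) :=
  {y | y ∈ cone x a ∧ (y.1 a = x.1 a ∨ ∃ b, a < b ∧ y.1 b = 1)}

lemma mem_bset_self (x : Fn I) (a : I) : x ∈ bset x a := ⟨mem_cone_self x a, Or.inl rfl⟩

lemma bset_subset_cone (x : Fn I) (a : I) : bset x a ⊆ cone x a := fun _ h => h.1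

lemma isOpen_bset [Nonempty I] (H : ∀ a : I, ∃ b, a < b) (x : Fn I) (a : I) :
    IsOpen (bset x a) := by
  rw [isOpen_iff]
  rintro y ⟨hy1, hy2⟩
  rcases hy2 with hy2 | ⟨b, hab, hy2⟩
  · obtain ⟨c, hc⟩ := H a
    refine ⟨c, fun g hg => ⟨cone_subset hy1 hc.le hg, Or.inl ?_⟩⟩
    rw [hg a hc, hy2]
  · obtain ⟨c, hc⟩ := H b
    refine ⟨c, fun g hg => ⟨cone_subset hy1 (hab.le.trans hc.le) hg, Or.inr ⟨b, hab, ?_⟩⟩⟩
    rw [hg b hc, hy2]

/-- The special base. -/
def base (I : Type) [LinearOrder I] : Set (Set (Fn I)) := {B | ∃ x a, B = bset x a}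

lemma base_isBasis [Nonempty I] (H : ∀ a : I, ∃ b, a < b) :
    TopologicalSpace.IsTopologicalBasis (base I) := by
  refine TopologicalSpace.isTopologicalBasis_of_isOpen_of_nhds ?_ ?_
  · rintro _ ⟨x, a, rfl⟩
    exact isOpen_bset H x a
  · intro f U hf hU
    obtain ⟨a, ha⟩ := hU f hf
    exact ⟨bset f a, ⟨f, a, rfl⟩, mem_bset_self f a, (bset_subset_cone f a).trans ha⟩

/-- Change the value of `y` at `b` to `v`. -/
noncomputable def upd (y : Fn I) (b : I) (v : ℕ) : Fn I :=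
  ⟨Function.update y.1 b v, by
    refine (y.2.union (countable_singleton b)).mono ?_
    intro c hc
    by_cases h : c = b
    · exact Or.inr h
    · left
      simpa [Function.mem_support, Function.update_of_ne h] using hc⟩

lemma upd_self (y : Fn I) (b : I) (v : ℕ) : (upd y b v).1 b = v := by
  simp [upd]

lemma upd_ne (y : Fn I) {b c : I} (v : ℕ) (h : c ≠ b) : (upd y b v).1 c = y.1 c := by
  simp [upd, Function.update_of_ne h]

/-- The closure properties of the sets used in the construction. -/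
def Good (Z : Set (Fn I)) (a : I) : Prop :=
  (∀ y ∈ Z, ∀ b, y.1 b ≠ 1) ∧
    ∀ y ∈ Z, ∀ b, a ≤ b → ∃ F : Finset ℕ, ∀ v ∉ F, upd y b v ∈ Z

/-- One step of shrinking. -/
def cut (Z : Set (Fn I)) (x : Fn I) (a : I) : Set (Fn I) :=
  {y | y ∈ Z ∧ y ∈ cone x a ∧ y.1 a ≠ x.1 a}

lemma Good.cut_good {Z : Set (Fn I)} {a : I} (h : Good Z a) (x : Fn I) {c : I} (hac : a ≤ c) :
    Good (cut Z x c) c := by
  refine ⟨fun y hy => h.1 y hy.1, ?_⟩
  rintro y ⟨hy1, hy2, hy3⟩ b hcb
  obtain ⟨F, hF⟩ := h.2 y hy1 b (hac.trans hcb)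
  refine ⟨insert (x.1 c) F, fun v hv => ?_⟩
  rw [Finset.mem_insert, not_or] at hv
  refine ⟨hF v hv.2, ?_, ?_⟩
  · intro d hd
    rw [upd_ne _ _ (hd.trans_le hcb).ne]
    exact hy2 d hd
  · by_cases hbc : c = b
    · subst hbc
      rw [upd_self]
      exact hv.1
    · rw [upd_ne _ _ hbc]
      exact hy3

lemma Good.cut_nonempty {Z : Set (Fn I)} {a : I} (h : Good Z a) (x : Fn I) {c : I}
    (hac : a ≤ c) (hne : (bset x c ∩ Z).Nonempty) : (cut Z x c).Nonempty := by
  obtain ⟨y, hy1, hy2⟩ := hne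
  obtain ⟨F, hF⟩ := h.2 y hy2 c hac
  obtain ⟨v, hv⟩ := Infinite.exists_notMem_finset (insert (x.1 c) F)
  rw [Finset.mem_insert, not_or] at hv
  refine ⟨upd y c v, hF v hv.2, ?_, ?_⟩
  · intro d hd
    rw [upd_ne _ _ hd.ne]
    exact hy1.1 d hd
  · rw [upd_self]
    exact hv.1

/-- The stages of the construction. -/
structure St (C : Set (Set (Fn I))) where
  /-- the current set -/
  Z : Set (Fn I)
  /-- the current level -/
  a : I
  ne : Z.Nonempty
  good : Good Z a
  min : ∀ x c, bset x c ∈ C → (bset x c ∩ Z).Nonempty → a ≤ c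

/-- The relation between two consecutive stages. -/
def Step {C : Set (Set (Fn I))} (s t : St C) (x : Fn I) : Prop :=
  bset x t.a ∈ C ∧ (bset x t.a ∩ s.Z).Nonempty ∧ t.Z ⊆ s.Z ∧ t.Z ⊆ cone x t.a ∧
    Disjoint t.Z (bset x t.a) ∧ s.a ≤ t.a

lemma exists_step [WellFoundedLT I] {C : Set (Set (Fn I))} (hC : C ⊆ base I)
    (hcov : ⋃₀ C = univ) (s : St C) : ∃ (t : St C) (x : Fn I), Step s t x := by
  -- the set of admissible levels
  let L : Set I := {c | ∃ x, bset x c ∈ C ∧ (bset x c ∩ s.Z).Nonempty}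
  have hL : L.Nonempty := by
    obtain ⟨y, hy⟩ := s.ne
    have : y ∈ ⋃₀ C := hcov ▸ mem_univ y
    obtain ⟨B, hB, hyB⟩ := this
    obtain ⟨x, c, rfl⟩ := hC hB
    exact ⟨c, x, hB, y, hyB, hy⟩
  obtain ⟨c, ⟨x, hx1, hx2⟩, hmin⟩ := WellFounded.has_min (wellFounded_lt (α := I)) L hL
  have hac : s.a ≤ c := s.min x c hx1 hx2
  refine ⟨⟨cut s.Z x c, c, s.good.cut_nonempty x hac hx2, s.good.cut_good x hac, ?_⟩, x,
    hx1, hx2, fun y hy => hy.1, fun y hy => hy.2.1, ?_, hac⟩
  · intro x' c' h1 h2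
    refine not_lt.mp (hmin c' ⟨x', h1, ?_⟩)
    obtain ⟨y, hy1, hy2⟩ := h2
    exact ⟨y, hy1, hy2.1⟩
  · rw [Set.disjoint_left]
    rintro y hy ⟨-, h | ⟨b, -, h⟩⟩
    · exact hy.2.2 h
    · exact s.good.1 y hy.1 b h

lemma exists_init [WellFoundedLT I] [Nonempty I] (C : Set (Set (Fn I))) : Nonempty (St C) := by
  obtain ⟨a, -, ha⟩ := WellFounded.has_min (wellFounded_lt (α := I)) univ univ_nonempty
  refine ⟨⟨{y | ∀ b, y.1 b ≠ 1}, a, ?_, ⟨fun y hy => hy, ?_⟩, fun x c _ _ =>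
    not_lt.mp (ha c trivial)⟩⟩
  · exact ⟨⟨fun _ => 0, by simp [Function.support]⟩, fun b => by simp⟩
  · intro y hy b _
    refine ⟨{1}, fun v hv c => ?_⟩
    by_cases h : c = b
    · subst h
      rw [upd_self]
      simpa using hv
    · rw [upd_ne _ _ h]
      exact hy c

theorem not_locallyFinite [WellFoundedLT I] [Nonempty I] (H : ∀ a : I, ∃ b, a < b)
    (C : Set (Set (Fn I))) (hC : C ⊆ base I) (hcov : ⋃₀ C = univ) :
    ¬ LocallyFinite (fun c : C => (c : Set (Fn I))) := by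
  classical
  intro hLF
  choose nxt pt hstep using fun s : St C => exists_step hC hcov s
  let st : ℕ → St C := fun n => Nat.rec (exists_init C).some (fun _ s => nxt s) n
  let x : ℕ → Fn I := fun n => pt (st n)
  have hs : ∀ n, Step (st n) (st (n + 1)) (x n) := fun n => hstep (st n)
  -- levels
  let a : ℕ → I := fun n => (st (n + 1)).a
  have hB : ∀ n, bset (x n) (a n) ∈ C := fun n => (hs n).1
  have hZanti : Antitone (fun n => (st n).Z) := antitone_nat_of_succ_le fun n => (hs n).2.2.1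
  have hZcone : ∀ n m, n < m → (st m).Z ⊆ cone (x n) (a n) := fun n m hnm =>
    (hZanti (Nat.succ_le_of_lt hnm)).trans (hs n).2.2.2.1
  have hinj : ∀ n m, n < m → bset (x n) (a n) ≠ bset (x m) (a m) := by
    intro n m hnm heq
    obtain ⟨y, hy1, hy2⟩ := (hs m).2.1
    have h1 : y ∈ (st (n + 1)).Z := hZanti (Nat.succ_le_of_lt hnm) hy2
    exact Set.disjoint_left.mp (hs n).2.2.2.2.1 h1 (heq ▸ hy1)
  have hcoh : ∀ n m b, b < a n → b < a m → (x n).1 b = (x m).1 b := by
    intro n m b hn hm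
    obtain ⟨y, hy⟩ := (st (max n m + 1)).ne
    have h1 := hZcone n (max n m + 1) (by omega) hy b hn
    have h2 := hZcone m (max n m + 1) (by omega) hy b hm
    rw [← h1, ← h2]
  -- the limit point
  let z0 : I → ℕ := fun b => if h : ∃ n, b < a n then (x (Nat.find h)).1 b else 0
  have hz0 : ∀ n b, b < a n → z0 b = (x n).1 b := by
    intro n b hb
    have h : ∃ n, b < a n := ⟨n, hb⟩
    simp only [z0, dif_pos h]
    exact hcoh _ _ b (Nat.find_spec h) hb
  have hsupp : (Function.support z0).Countable := by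
    refine (countable_iUnion fun n => (x n).2).mono ?_
    intro b hb
    by_cases h : ∃ n, b < a n
    · obtain ⟨n, hn⟩ := h
      refine mem_iUnion.mpr ⟨n, ?_⟩
      rw [Function.mem_support, ← hz0 n b hn]
      exact hb
    · exact absurd (by simp only [z0, dif_neg h]) hb
  let z : Fn I := ⟨z0, hsupp⟩
  obtain ⟨N, hN, hfin⟩ := hLF z
  obtain ⟨c, hc⟩ := (mem_nhds_iff' z N).mp hN
  have hmeet : ∀ n, (bset (x n) (a n) ∩ N).Nonempty := by
    intro n
    obtain ⟨e, he⟩ := H (max c (a n))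
    refine ⟨upd z e 1, ⟨?_, Or.inr ⟨e, (le_max_right _ _).trans_lt he, upd_self _ _ _⟩⟩, hc ?_⟩
    · intro b hb
      rw [upd_ne _ _ (hb.trans ((le_max_right _ _).trans_lt he)).ne]
      exact hz0 n b hb
    · intro b hb
      rw [upd_ne _ _ (hb.trans ((le_max_left _ _).trans_lt he)).ne]
  have hinj' : Function.Injective (fun n => (⟨bset (x n) (a n), hB n⟩ : C)) := by
    intro n m h
    have h' : bset (x n) (a n) = bset (x m) (a m) := congrArg Subtype.val h
    rcases lt_trichotomy n m with hlt | heq | hgt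
    · exact absurd h' (hinj n m hlt)
    · exact heq
    · exact absurd h'.symm (hinj m n hgt)
  have : (Set.range (fun n => (⟨bset (x n) (a n), hB n⟩ : C))).Finite :=
    hfin.subset (by
      rintro _ ⟨n, rfl⟩
      exact hmeet n)
  exact Set.infinite_range_of_injective hinj' this

theorem not_totallyParacompact [WellFoundedLT I] [Nonempty I] (H : ∀ a : I, ∃ b, a < b) :
    ¬ TotallyParacompact (Fn I) := by
  intro h
  obtain ⟨C, hC, hcov, hLF⟩ := h (base I) (base_isBasis H)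
  exact not_locallyFinite H C hC hcov hLF

end Pool.Agent.Lib.MP_74305c_gt
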